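import Mathlib

/-! Convolution powers of probability vectors on `ℤ/n`. -/

namespace Q9.Dice

open Finset

variable {n : ℕ} [NeZero n]

/-- the probability that the sum of `m` independent random residues with distribution `p` is `k` -/
noncomputable def pr (m : ℕ) (p : ZMod n → ℝ) (k : ZMod n) : ℝ :=
  ∑ x : Fin m → ZMod n, if ∑ i, x i = k then ∏ i, p (x i) else 0

theorem pr_zero (p : ZMod n → ℝ) (k : ZMod n) : pr 0 p k = if k = 0 then 1 else 0 := by
  unfold pr
  simp [eq_comm]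

theorem pr_succ (m : ℕ) (p : ZMod n → ℝ) (k : ZMod n) :
    pr (m + 1) p k = ∑ i, p i * pr m p (k - i) := by
  unfold pr
  rw [← Equiv.sum_comp (Fin.consEquiv (fun _ => ZMod n)), Fintype.sum_prod_type]
  refine sum_congr rfl fun i _ => ?_
  rw [mul_sum]
  refine sum_congr rfl fun x _ => ?_
  have h1 : ∑ j, (Fin.consEquiv (fun _ : Fin (m + 1) => ZMod n)) (i, x) j = i + ∑ j, x j := by
    rw [Fin.sum_univ_succ]; simp [Fin.consEquiv]
  have h2 : ∏ j, p ((Fin.consEquiv (fun _ : Fin (m + 1) => ZMod n)) (i, x) j) =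
      p i * ∏ j, p (x j) := by
    rw [Fin.prod_univ_succ]; simp [Fin.consEquiv]
  rw [h1, h2, mul_ite, mul_zero]
  congr 1
  rw [eq_iff_iff, eq_sub_iff_add_eq, add_comm]

theorem pr_nonneg (m : ℕ) (p : ZMod n → ℝ) (hp : ∀ i, 0 ≤ p i) (k : ZMod n) : 0 ≤ pr m p k := by
  unfold pr
  refine sum_nonneg fun x _ => ?_
  split_ifs
  · exact prod_nonneg fun i _ => hp _
  · exact le_rfl

theorem pr_sum (m : ℕ) (p : ZMod n → ℝ) : ∑ k, pr m p k = (∑ i, p i) ^ m := by
  induction m with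
  | zero => simp [pr_zero]
  | succ m ih =>
    simp_rw [pr_succ]
    rw [sum_comm]
    have : ∀ i, ∑ k, p i * pr m p (k - i) = p i * (∑ j, p j) ^ m := by
      intro i
      rw [← mul_sum, ← ih]
      congr 1
      exact Equiv.sum_comp (Equiv.subRight i) (pr m p)
    simp_rw [this]
    rw [← sum_mul, pow_succ]
    ring

theorem pr_cont (m : ℕ) (k : ZMod n) : Continuous fun p : ZMod n → ℝ => pr m p k := by
  unfold pr
  refine continuous_finsetSum _ fun x _ => ?_
  split_ifs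
  · exact continuous_finsetProd _ fun i _ => continuous_apply _
  · exact continuous_const

/-- moving mass `ε` to `i` -/
noncomputable def mv (p : ZMod n → ℝ) (ε : ℝ) (i : ZMod n) : ZMod n → ℝ :=
  fun j => (1 - ε) * p j + ε * if j = i then 1 else 0

theorem pr_mv (m : ℕ) (p : ZMod n → ℝ) (ε : ℝ) (i k : ZMod n) :
    pr (m + 1) (mv p ε i) k =
      (1 - ε) * ∑ j, p j * pr m (mv p ε i) (k - j) + ε * pr m (mv p ε i) (k - i) := by
  rw [pr_succ, mul_sum]
  have : ∀ j, mv p ε i j * pr m (mv p ε i) (k - j) =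
      (1 - ε) * (p j * pr m (mv p ε i) (k - j)) +
        if j = i then ε * pr m (mv p ε i) (k - i) else 0 := by
    intro j
    by_cases h : j = i
    · subst h; simp [mv]; ring
    · simp [mv, h]; ring
  rw [sum_congr rfl (fun j _ => this j), sum_add_distrib]
  simp

theorem low0 (m : ℕ) (p : ZMod n → ℝ) (hp : ∀ i, 0 ≤ p i) (ε : ℝ) (h0 : 0 ≤ ε) (h1 : ε ≤ 1)
    (i k : ZMod n) : (1 - ε) ^ m * pr m p k ≤ pr m (mv p ε i) k := by
  have hmv : ∀ j, 0 ≤ mv p ε i j := by
    intro j; unfold mv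
    have := hp j
    have h2 : 0 ≤ 1 - ε := by linarith
    split_ifs <;> positivity
  induction m generalizing k with
  | zero => simp [pr_zero]
  | succ m ih =>
    rw [pr_mv, pr_succ]
    have h2 : 0 ≤ 1 - ε := by linarith
    have h3 : ∑ j, p j * ((1 - ε) ^ m * pr m p (k - j)) ≤
        ∑ j, p j * pr m (mv p ε i) (k - j) :=
      sum_le_sum fun j _ => mul_le_mul_of_nonneg_left (ih (k - j)) (hp j)
    have h4 : ∑ j, p j * ((1 - ε) ^ m * pr m p (k - j)) =
        (1 - ε) ^ m * ∑ j, p j * pr m p (k - j) := by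
      rw [mul_sum]; exact sum_congr rfl fun j _ => by ring
    rw [h4] at h3
    have h5 := pr_nonneg m (mv p ε i) hmv (k - i)
    have h6 := mul_le_mul_of_nonneg_left h3 h2
    have h7 : 0 ≤ ε * pr m (mv p ε i) (k - i) := mul_nonneg h0 h5
    calc _ = (1 - ε) * ((1 - ε) ^ m * ∑ j, p j * pr m p (k - j)) := by ring
      _ ≤ _ := by linarith

theorem low1 (m : ℕ) (p : ZMod n → ℝ) (hp : ∀ i, 0 ≤ p i) (ε : ℝ) (h0 : 0 ≤ ε) (h1 : ε ≤ 1)
    (i k : ZMod n) :
    (1 - ε) ^ (m + 1) * pr (m + 1) p k + (m + 1) * ε * (1 - ε) ^ m * pr m p (k - i) ≤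
      pr (m + 1) (mv p ε i) k := by
  have h2 : 0 ≤ 1 - ε := by linarith
  induction m generalizing k with
  | zero =>
    rw [pr_mv, pr_succ]
    simp only [pr_zero]
    simp
  | succ m ih =>
    rw [pr_mv]
    have h3 : ∑ j, p j * ((1 - ε) ^ (m + 1) * pr (m + 1) p (k - j) +
        (m + 1) * ε * (1 - ε) ^ m * pr m p (k - j - i)) ≤
        ∑ j, p j * pr (m + 1) (mv p ε i) (k - j) :=
      sum_le_sum fun j _ => mul_le_mul_of_nonneg_left (ih (k - j)) (hp j)
    have h4 : ∑ j, p j * ((1 - ε) ^ (m + 1) * pr (m + 1) p (k - j) +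
        (m + 1) * ε * (1 - ε) ^ m * pr m p (k - j - i)) =
        (1 - ε) ^ (m + 1) * pr (m + 2) p k + (m + 1) * ε * (1 - ε) ^ m * pr (m + 1) p (k - i) := by
      rw [pr_succ (m + 1), pr_succ m p (k - i), mul_sum, mul_sum, ← sum_add_distrib]
      refine sum_congr rfl fun j _ => ?_
      have : k - j - i = k - i - j := by ring
      rw [this]; ring
    rw [h4] at h3
    have h5 := mul_le_mul_of_nonneg_left h3 h2
    have h6 := mul_le_mul_of_nonneg_left (low0 (m + 1) p hp ε h0 h1 i (k - i)) h0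
    push_cast
    calc _ = (1 - ε) * ((1 - ε) ^ (m + 1) * pr (m + 2) p k +
          (m + 1) * ε * (1 - ε) ^ m * pr (m + 1) p (k - i)) +
          ε * ((1 - ε) ^ (m + 1) * pr (m + 1) p (k - i)) := by ring
      _ ≤ _ := by linarith

/-- optimality conditions at a maximiser -/
theorem kkt (m : ℕ) (p : ZMod n → ℝ) (hp : ∀ i, 0 ≤ p i) (hp1 : ∑ i, p i = 1) (k : ZMod n)
    (hmax : ∀ p' : ZMod n → ℝ, (∀ i, 0 ≤ p' i) → ∑ i, p' i = 1 →
      pr (m + 1) p' k ≤ pr (m + 1) p k) (i : ZMod n) : pr m p (k - i) ≤ pr (m + 1) p k := by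
  set f := pr (m + 1) p k with hf
  set q := pr m p (k - i) with hq
  have hq0 : 0 ≤ q := pr_nonneg m p hp _
  have hq1 : q ≤ 1 := by
    have := pr_sum m p
    rw [hp1, one_pow] at this
    rw [← this]
    exact single_le_sum (f := pr m p) (fun j _ => pr_nonneg m p hp j) (mem_univ _)
  have hf0 : 0 ≤ f := pr_nonneg (m + 1) p hp _
  have key : ∀ ε : ℝ, 0 < ε → ε < 1 → q ≤ f + m * ε := by
    intro ε h0 h1
    have h2 := low1 m p hp ε h0.le h1.le i k
    have h3 := hmax (mv p ε i) (by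
      intro j; unfold mv
      have := hp j
      have h2 : 0 ≤ 1 - ε := by linarith
      split_ifs <;> positivity) (by
      unfold mv
      rw [sum_add_distrib, ← mul_sum, ← mul_sum, hp1]
      simp)
    have h4 : (1 - ε) ^ (m + 1) * f + (m + 1) * ε * (1 - ε) ^ m * q ≤ f := h2.trans h3
    have h5 : 1 - (m + 1) * ε ≤ (1 - ε) ^ (m + 1) := by
      have := one_add_mul_le_pow (a := -ε) (by linarith) (m + 1)
      push_cast at this
      have e : (1 + -ε) = 1 - ε := by ring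
      rw [e] at this
      linarith
    have h6 : 1 - m * ε ≤ (1 - ε) ^ m := by
      have := one_add_mul_le_pow (a := -ε) (by linarith) m
      have e : (1 + -ε) = 1 - ε := by ring
      rw [e] at this
      linarith
    have h7 : (m + 1) * ε * ((1 - ε) ^ m * q) ≤ (m + 1) * ε * f := by
      nlinarith [mul_le_mul_of_nonneg_right h5 hf0]
    have h8 : (1 - ε) ^ m * q ≤ f := le_of_mul_le_mul_left h7 (by positivity)
    have h9 : (1 - m * ε) * q ≤ f := (mul_le_mul_of_nonneg_right h6 hq0).trans h8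
    have h10 : m * ε * q ≤ m * ε * 1 := mul_le_mul_of_nonneg_left hq1 (by positivity)
    linarith
  by_contra hcon
  push Not at hcon
  have h0 : 0 < q - f := by linarith
  have h1 : q - f ≤ 1 := by linarith
  have h2 := key ((q - f) / (m + 2)) (by positivity) (by
    rw [div_lt_one (by positivity)]
    have : (0 : ℝ) ≤ m := Nat.cast_nonneg m
    linarith)
  have h3 : (m : ℝ) * ((q - f) / (m + 2)) < q - f := by
    rw [mul_div_assoc', div_lt_iff₀ (by positivity)]
    nlinarith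
  linarith

theorem kkt_eq (m : ℕ) (p : ZMod n → ℝ) (hp : ∀ i, 0 ≤ p i) (hp1 : ∑ i, p i = 1) (k : ZMod n)
    (hmax : ∀ p' : ZMod n → ℝ, (∀ i, 0 ≤ p' i) → ∑ i, p' i = 1 →
      pr (m + 1) p' k ≤ pr (m + 1) p k) (i : ZMod n) (hi : p i ≠ 0) :
    pr m p (k - i) = pr (m + 1) p k := by
  set f := pr (m + 1) p k with hf
  have h1 : ∑ j, p j * (f - pr m p (k - j)) = 0 := by
    have h2 : f = ∑ j, p j * pr m p (k - j) := pr_succ m p k
    have h3 : f = ∑ j, p j * f := by rw [← sum_mul, hp1, one_mul]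
    simp_rw [mul_sub]
    rw [sum_sub_distrib, ← h3, ← h2, sub_self]
  have h2 := (sum_eq_zero_iff_of_nonneg (fun j _ =>
    mul_nonneg (hp j) (sub_nonneg.2 (kkt m p hp hp1 k hmax j)))).1 h1 i (mem_univ _)
  have h3 := (mul_eq_zero.1 h2).resolve_left hi
  linarith

/-- size of the support of a maximiser -/
theorem supp_card (m : ℕ) (p : ZMod n → ℝ) (hp : ∀ i, 0 ≤ p i) (hp1 : ∑ i, p i = 1) (k : ZMod n)
    (hmax : ∀ p' : ZMod n → ℝ, (∀ i, 0 ≤ p' i) → ∑ i, p' i = 1 →
      pr (m + 1) p' k ≤ pr (m + 1) p k) :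
    ((univ.filter fun i => p i ≠ 0).card : ℝ) * pr (m + 1) p k ≤ 1 := by
  have h1 : ∑ i ∈ univ.filter (fun i => p i ≠ 0), pr m p (k - i) =
      ((univ.filter fun i => p i ≠ 0).card : ℝ) * pr (m + 1) p k := by
    rw [sum_congr rfl (fun i hi => kkt_eq m p hp hp1 k hmax i (mem_filter.1 hi).2)]
    simp
  rw [← h1]
  have h2 : ∑ i, pr m p (k - i) = 1 := by
    have h3 := Equiv.sum_comp (Equiv.subLeft k) (pr m p)
    simp only [Equiv.subLeft_apply] at h3
    rw [h3, pr_sum, hp1, one_pow]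
  rw [← h2]
  exact sum_le_sum_of_subset_of_nonneg (filter_subset _ _) fun j _ _ => pr_nonneg m p hp _

end Q9.Dice
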