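import Pool.Agent.Q9.Dice.A

/-! Two-point distributions and binomial weights. -/

namespace Q9.Dice

open Finset

/-- binomial weights -/
noncomputable def b (n : ℕ) (x : ℝ) (j : ℕ) : ℝ := n.choose j * x ^ j * (1 - x) ^ (n - j)

theorem b_nonneg (n : ℕ) {x : ℝ} (h0 : 0 ≤ x) (h1 : x ≤ 1) (j : ℕ) : 0 ≤ b n x j := by
  unfold b
  have : 0 ≤ 1 - x := by linarith
  positivity

theorem b_sum (n : ℕ) (x : ℝ) : ∑ j ∈ range (n + 1), b n x j = 1 := by
  have h := add_pow x (1 - x) n
  have e : x + (1 - x) = 1 := by ring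
  rw [e, one_pow] at h
  rw [h]
  exact sum_congr rfl fun j _ => by unfold b; ring

theorem b_symm (n : ℕ) (x : ℝ) {j : ℕ} (hj : j ≤ n) : b n (1 - x) (n - j) = b n x j := by
  unfold b
  rw [Nat.choose_symm hj, Nat.sub_sub_self hj, sub_sub_cancel]
  ring

variable {n : ℕ} [NeZero n]

/-- the group-algebra element of `p` -/
noncomputable def MA (p : ZMod n → ℝ) : AddMonoidAlgebra ℝ (ZMod n) :=
  ∑ i, AddMonoidAlgebra.single i (p i)

theorem MA_pow (m : ℕ) (p : ZMod n → ℝ) (k : ZMod n) : (MA p ^ m).coeff k = pr m p k := by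
  induction m generalizing k with
  | zero =>
    rw [pow_zero, pr_zero, AddMonoidAlgebra.one_def]
    simp [Finsupp.single_apply, eq_comm]
  | succ m ih =>
    rw [pow_succ', pr_succ]
    unfold MA at ih ⊢
    rw [sum_mul, AddMonoidAlgebra.coeff_sum, Finsupp.finsetSum_apply]
    refine sum_congr rfl fun i _ => ?_
    rw [AddMonoidAlgebra.coeff_single_mul_eq_mul_coeff (m₂ := k - i), ih]
    intro m' _
    rw [eq_sub_iff_add_eq, add_comm]

/-- the law of `a · Bin(n, x)` -/
noncomputable def w (n : ℕ) (x : ℝ) (a c : ZMod n) : ℝ :=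
  ∑ j ∈ range (n + 1), if (j : ZMod n) * a = c then b n x j else 0

/-- a distribution supported on two points -/
theorem two_point (p : ZMod n → ℝ) (x : ℝ) (c d : ZMod n) (hcd : c ≠ d) (hc : p c = 1 - x)
    (hd : p d = x) (h0 : ∀ i, i ≠ c → i ≠ d → p i = 0) (k : ZMod n) :
    pr n p k = w n x (d - c) k := by
  have h1 : MA p = AddMonoidAlgebra.single d x + AddMonoidAlgebra.single c (1 - x) := by
    unfold MA
    rw [Fintype.sum_eq_add d c hcd.symm]
    · rw [hc, hd]
    · rintro i ⟨h1, h2⟩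
      rw [h0 i h2 h1, AddMonoidAlgebra.single_zero]
  rw [← MA_pow, h1, add_pow, AddMonoidAlgebra.coeff_sum, Finsupp.finsetSum_apply]
  unfold w
  refine sum_congr rfl fun j hj => ?_
  have hj' : j ≤ n := Nat.lt_succ_iff.1 (mem_range.1 hj)
  rw [AddMonoidAlgebra.single_pow, AddMonoidAlgebra.single_pow, AddMonoidAlgebra.single_mul_single,
    AddMonoidAlgebra.natCast_def, AddMonoidAlgebra.single_mul_single, add_zero]
  have e : j • d + (n - j) • c = (j : ZMod n) * (d - c) := by
    rw [nsmul_eq_mul, nsmul_eq_mul, Nat.cast_sub hj', ZMod.natCast_self]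
    ring
  rw [e]
  simp only [AddMonoidAlgebra.coeff_single, Finsupp.single_apply]
  split_ifs
  · unfold b; ring
  · rfl

theorem w_sum (x : ℝ) (a : ZMod n) : ∑ c, w n x a c = 1 := by
  unfold w
  rw [sum_comm, ← b_sum n x]
  exact sum_congr rfl fun j _ => by simp

theorem w_nonneg {x : ℝ} (h0 : 0 ≤ x) (h1 : x ≤ 1) (a c : ZMod n) : 0 ≤ w n x a c := by
  unfold w
  refine sum_nonneg fun j _ => ?_
  split_ifs
  · exact b_nonneg n h0 h1 j
  · exact le_rfl

/-- a distribution on two points realises `w` -/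
theorem two_point' (x : ℝ) (a : ZMod n) (ha : a ≠ 0) (k : ZMod n) :
    pr n (fun i => if i = 0 then 1 - x else if i = a then x else 0) k = w n x a k := by
  have := two_point (fun i => if i = 0 then 1 - x else if i = a then x else 0) x 0 a ha.symm
    (by simp) (by simp [ha]) (by intro i h1 h2; simp [h1, h2]) k
  rwa [sub_zero] at this

theorem w_symm (x : ℝ) (a c : ZMod n) : w n x a c = w n (1 - x) (-a) c := by
  unfold w
  rw [← sum_range_reflect]
  refine sum_congr rfl fun j hj => ?_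
  have hj' : j ≤ n := Nat.lt_succ_iff.1 (mem_range.1 hj)
  have e : n + 1 - 1 - j = n - j := by omega
  rw [e]
  have e2 : ((n - j : ℕ) : ZMod n) * a = (j : ZMod n) * -a := by
    rw [Nat.cast_sub hj', ZMod.natCast_self]; ring
  rw [e2, ← b_symm n (1 - x) hj', sub_sub_cancel]

end Q9.Dice
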