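import Pool.Agent.Q9.Dice.B

/-! The estimate for residue classes away from `0, 1, n-1, n`. -/

namespace Q9.Dice

open Finset

theorem amgm {P Q R u v : ℝ} (hP : 0 ≤ P) (hR : 0 ≤ R) (hu : 2 ≤ u) (hv : 2 ≤ v)
    (huv : 5 ≤ u + v) (h : P * R * ((v + 1) * (u + 1)) = Q ^ 2 * (u * v)) :
    1.4 * Q ≤ P + R := by
  have h1 : (v + 1) * (u + 1) ≤ 2 * (u * v) := by nlinarith [mul_nonneg (sub_nonneg.2 hu) (sub_nonneg.2 hv)]
  have h2 : 0 < (v + 1) * (u + 1) := by positivity
  have h3 : Q ^ 2 ≤ 2 * (P * R) := by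
    have h4 : Q ^ 2 * ((v + 1) * (u + 1)) ≤ 2 * (P * R) * ((v + 1) * (u + 1)) := by
      have := mul_le_mul_of_nonneg_left h1 (sq_nonneg Q)
      nlinarith
    exact le_of_mul_le_mul_right h4 h2
  have h5 : (1.4 * Q) ^ 2 ≤ (P + R) ^ 2 := by nlinarith [sq_nonneg (P - R), sq_nonneg Q]
  exact le_of_sq_le_sq h5 (by positivity)

theorem quart {u v : ℝ} (hu : 3 ≤ u) (hv : 2 ≤ v) :
    (v + 1) * (v + 2) * ((u + 1) * (u + 2)) ≤ 20 * (u * (u - 1) * (v * (v - 1))) := by
  have h1 : 3 * ((u + 1) * (u + 2)) ≤ 10 * (u * (u - 1)) := by nlinarith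
  have h2 : (v + 1) * (v + 2) ≤ 6 * (v * (v - 1)) := by nlinarith
  have h3 : 0 ≤ (v + 1) * (v + 2) := by positivity
  have h4 : 0 ≤ 10 * (u * (u - 1)) := by
    have : 0 ≤ u - 1 := by linarith
    positivity
  have := mul_le_mul h2 h1 (by positivity) (by linarith)
  linarith

theorem amgm2 {P Q R u v : ℝ} (hP : 0 ≤ P) (hR : 0 ≤ R) (hu : 2 ≤ u) (hv : 2 ≤ v)
    (huv : 3 ≤ u ∨ 3 ≤ v)
    (h : P * R * ((v + 1) * (v + 2) * ((u + 1) * (u + 2))) = Q ^ 2 * (u * (u - 1) * (v * (v - 1)))) :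
    0.44 * Q ≤ P + R := by
  have h1 : (v + 1) * (v + 2) * ((u + 1) * (u + 2)) ≤ 20 * (u * (u - 1) * (v * (v - 1))) := by
    rcases huv with h1 | h1
    · exact quart h1 hv
    · have := quart h1 hu
      linarith
  have h2 : 0 < (v + 1) * (v + 2) * ((u + 1) * (u + 2)) := by positivity
  have h3 : Q ^ 2 ≤ 20 * (P * R) := by
    have h4 : Q ^ 2 * ((v + 1) * (v + 2) * ((u + 1) * (u + 2))) ≤
        20 * (P * R) * ((v + 1) * (v + 2) * ((u + 1) * (u + 2))) := by
      have := mul_le_mul_of_nonneg_left h1 (sq_nonneg Q)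
      nlinarith
    exact le_of_mul_le_mul_right h4 h2
  have h5 : (0.44 * Q) ^ 2 ≤ (P + R) ^ 2 := by nlinarith [sq_nonneg (P - R), sq_nonneg Q]
  exact le_of_sq_le_sq h5 (by positivity)

/-- neighbouring weights -/
theorem b_near (n i v : ℕ) (x : ℝ) (h0 : 0 ≤ x) (h1 : x ≤ 1) (hn : n = i + 2 + v) (hv : 2 ≤ v)
    (h5 : 5 ≤ n) :
    1.4 * b n x (i + 2) ≤ b n x (i + 1) + b n x (i + 3) ∧
      0.44 * b n x (i + 2) ≤ b n x i + b n x (i + 4) := by
  have c0 := Nat.choose_succ_right_eq n i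
  have c1 := Nat.choose_succ_right_eq n (i + 1)
  have c2 := Nat.choose_succ_right_eq n (i + 2)
  have c3 := Nat.choose_succ_right_eq n (i + 3)
  have e0 : n - i = v + 2 := by omega
  have e1 : n - (i + 1) = v + 1 := by omega
  have e2 : n - (i + 2) = v := by omega
  have e3 : n - (i + 3) = v - 1 := by omega
  have e4 : n - (i + 4) = v - 2 := by omega
  rw [e0] at c0
  rw [e1] at c1
  rw [e2] at c2
  rw [e3] at c3
  have d0 : (n.choose (i + 1) : ℝ) * (i + 1) = n.choose i * (v + 2) := by exact_mod_cast c0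
  have d1 : (n.choose (i + 2) : ℝ) * (i + 2) = n.choose (i + 1) * (v + 1) := by
    have : ((n.choose (i + 1 + 1) * (i + 1 + 1) : ℕ) : ℝ) = (n.choose (i + 1) * (v + 1) : ℕ) := by
      rw [c1]
    push_cast at this
    have e : i + 1 + 1 = i + 2 := rfl
    rw [e] at this
    linarith
  have d2 : (n.choose (i + 3) : ℝ) * (i + 3) = n.choose (i + 2) * v := by
    have : ((n.choose (i + 2 + 1) * (i + 2 + 1) : ℕ) : ℝ) = (n.choose (i + 2) * v : ℕ) := by
      rw [c2]
    push_cast at this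
    have e : i + 2 + 1 = i + 3 := rfl
    rw [e] at this
    linarith
  have d3 : (n.choose (i + 4) : ℝ) * (i + 4) = n.choose (i + 3) * (v - 1) := by
    have : ((n.choose (i + 3 + 1) * (i + 3 + 1) : ℕ) : ℝ) = (n.choose (i + 3) * (v - 1) : ℕ) := by
      rw [c3]
    rw [Nat.cast_mul, Nat.cast_mul, Nat.cast_sub (by omega : 1 ≤ v)] at this
    push_cast at this
    have e : i + 3 + 1 = i + 4 := rfl
    rw [e] at this
    linarith
  have hu : (2 : ℝ) ≤ (i : ℝ) + 2 := by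
    have : (0 : ℝ) ≤ i := Nat.cast_nonneg i
    linarith
  have hv' : (2 : ℝ) ≤ v := by exact_mod_cast hv
  have h5' : (5 : ℝ) ≤ (i : ℝ) + 2 + v := by
    have : (5 : ℝ) ≤ ((i + 2 + v : ℕ) : ℝ) := by exact_mod_cast (hn ▸ h5)
    push_cast at this
    exact this
  obtain ⟨v', rfl⟩ : ∃ v', v = v' + 2 := ⟨v - 2, by omega⟩
  constructor
  · refine amgm (b_nonneg n h0 h1 _) (b_nonneg n h0 h1 _) hu hv' h5' ?_
    unfold b
    rw [e1, e2, e3]
    have e : v' + 2 - 1 = v' + 1 := rfl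
    rw [e]
    have key : (n.choose (i + 1) : ℝ) * n.choose (i + 3) * (((v' + 2 : ℕ) + 1 : ℝ) * (i + 2 + 1)) =
        (n.choose (i + 2)) ^ 2 * ((i + 2) * ((v' + 2 : ℕ) : ℝ)) := by
      calc _ = ((n.choose (i + 1) : ℝ) * ((v' + 2 : ℕ) + 1)) *
            ((n.choose (i + 3) : ℝ) * (i + 3)) := by ring
        _ = _ := by rw [← d1, d2]; ring
    calc _ = (n.choose (i + 1) : ℝ) * n.choose (i + 3) *
          (((v' + 2 : ℕ) + 1 : ℝ) * (i + 2 + 1)) *
          (x ^ (i + 1) * (1 - x) ^ (v' + 2 + 1) * (x ^ (i + 3) * (1 - x) ^ (v' + 1))) := by ring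
      _ = _ := by rw [key]; ring
  · refine amgm2 (b_nonneg n h0 h1 _) (b_nonneg n h0 h1 _) hu hv' ?_ ?_
    · rcases Nat.eq_zero_or_pos i with hi | hi
      · right
        subst hi
        push_cast at h5' ⊢
        linarith
      · left
        have : (1 : ℝ) ≤ i := by exact_mod_cast hi
        linarith
    unfold b
    rw [e0, e2, e4]
    have e : v' + 2 - 2 = v' := rfl
    rw [e]
    have key : (n.choose i : ℝ) * n.choose (i + 4) *
        ((((v' + 2 : ℕ) : ℝ) + 1) * (((v' + 2 : ℕ) : ℝ) + 2) * (((i : ℝ) + 2 + 1) * ((i : ℝ) + 2 + 2))) =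
        (n.choose (i + 2)) ^ 2 * (((i : ℝ) + 2) * ((i : ℝ) + 2 - 1) *
          (((v' + 2 : ℕ) : ℝ) * (((v' + 2 : ℕ) : ℝ) - 1))) := by
      calc _ = ((n.choose i : ℝ) * (((v' + 2 : ℕ) : ℝ) + 2)) * ((n.choose (i + 4) : ℝ) * (i + 4)) *
            ((((v' + 2 : ℕ) : ℝ) + 1) * ((i : ℝ) + 3)) := by ring
        _ = ((n.choose (i + 1) : ℝ) * ((((v' + 2 : ℕ) : ℝ) + 1))) * ((n.choose (i + 3) : ℝ) * (i + 3)) *
            (((i : ℝ) + 1) * (((v' + 2 : ℕ) : ℝ) - 1)) := by rw [← d0, d3]; ring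
        _ = _ := by rw [← d1, d2]; ring
    calc _ = (n.choose i : ℝ) * n.choose (i + 4) *
        ((((v' + 2 : ℕ) : ℝ) + 1) * (((v' + 2 : ℕ) : ℝ) + 2) *
          (((i : ℝ) + 2 + 1) * ((i : ℝ) + 2 + 2))) *
          (x ^ i * (1 - x) ^ (v' + 2 + 2) * (x ^ (i + 4) * (1 - x) ^ v')) := by ring
      _ = _ := by rw [key]; ring

variable {n : ℕ} [NeZero n]

theorem w_shift (x : ℝ) (h0 : 0 ≤ x) (h1 : x ≤ 1) (a k k' : ZMod n) (φ : ℕ → ℕ)
    (hφ : ∀ j ≤ n, (j : ZMod n) * a = k → φ j ≤ n ∧ (φ j : ZMod n) * a = k')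
    (hinj : ∀ i ≤ n, (i : ZMod n) * a = k → ∀ j ≤ n, (j : ZMod n) * a = k → φ i = φ j → i = j) :
    ∑ j ∈ range (n + 1), (if (j : ZMod n) * a = k then b n x (φ j) else 0) ≤ w n x a k' := by
  unfold w
  rw [← sum_filter, ← sum_filter]
  have e : ∑ j ∈ (range (n + 1)).filter (fun j : ℕ => (j : ZMod n) * a = k), b n x (φ j) =
      ∑ i ∈ ((range (n + 1)).filter (fun j : ℕ => (j : ZMod n) * a = k)).image φ, b n x i := by
    rw [sum_image]
    intro i hi j hj hij
    simp only [coe_filter, mem_range, Set.mem_ofPred_eq] at hi hj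
    exact hinj i (by omega) hi.2 j (by omega) hj.2 hij
  rw [e]
  refine sum_le_sum_of_subset_of_nonneg ?_ fun j _ _ => b_nonneg n h0 h1 j
  intro i hi
  rw [mem_image] at hi
  obtain ⟨j, hj, rfl⟩ := hi
  simp only [mem_filter, mem_range] at hj ⊢
  have := hφ j (by omega) hj.2
  exact ⟨by omega, this.2⟩

theorem w_near (x : ℝ) (h0 : 0 ≤ x) (h1 : x ≤ 1) (a k : ZMod n) (h5 : 5 ≤ n)
    (hA : ∀ j ≤ n, (j : ZMod n) * a = k → 2 ≤ j ∧ j + 2 ≤ n) :
    1.4 * w n x a k ≤ w n x a (k - a) + w n x a (k + a) ∧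
      0.44 * w n x a k ≤ w n x a (k - 2 * a) + w n x a (k + 2 * a) := by
  have hsub : ∀ s : ℕ, s ≤ 2 → ∑ j ∈ range (n + 1), (if (j : ZMod n) * a = k then b n x (j - s) else 0) ≤
      w n x a (k - s * a) := by
    intro s hs
    refine w_shift x h0 h1 a k _ (fun j => j - s) ?_ ?_
    · intro j hj h
      have := hA j hj h
      refine ⟨by omega, ?_⟩
      rw [Nat.cast_sub (by omega), sub_mul, h]
    · intro i hi h j hj h' hij
      have := hA j hj h'
      have := hA i hi h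
      have h9 : i - s = j - s := hij
      omega
  have hadd : ∀ s : ℕ, s ≤ 2 → ∑ j ∈ range (n + 1), (if (j : ZMod n) * a = k then b n x (j + s) else 0) ≤
      w n x a (k + s * a) := by
    intro s hs
    refine w_shift x h0 h1 a k _ (fun j => j + s) ?_ ?_
    · intro j hj h
      have := hA j hj h
      refine ⟨by omega, ?_⟩
      rw [Nat.cast_add, add_mul, h]
    · intro i hi h j hj h' hij
      have h9 : i + s = j + s := hij
      omega
  have near : ∀ j ≤ n, (j : ZMod n) * a = k → 1.4 * b n x j ≤ b n x (j - 1) + b n x (j + 1) ∧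
      0.44 * b n x j ≤ b n x (j - 2) + b n x (j + 2) := by
    intro j hj h
    have h2 := hA j hj h
    obtain ⟨i, rfl⟩ : ∃ i, j = i + 2 := ⟨j - 2, by omega⟩
    exact b_near n i (n - (i + 2)) x h0 h1 (by omega) (by omega) h5
  constructor
  · have e1 := hsub 1 (by norm_num)
    have e2 := hadd 1 (by norm_num)
    rw [Nat.cast_one, one_mul] at e1 e2
    refine le_trans ?_ (add_le_add e1 e2)
    unfold w
    rw [mul_sum, ← sum_add_distrib]
    refine sum_le_sum fun j hj => ?_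
    by_cases h : (j : ZMod n) * a = k
    · simp only [if_pos h]
      exact (near j (by have := mem_range.1 hj; omega) h).1
    · simp [h]
  · have e1 := hsub 2 (by norm_num)
    have e2 := hadd 2 (by norm_num)
    rw [Nat.cast_ofNat] at e1 e2
    refine le_trans ?_ (add_le_add e1 e2)
    unfold w
    rw [mul_sum, ← sum_add_distrib]
    refine sum_le_sum fun j hj => ?_
    by_cases h : (j : ZMod n) * a = k
    · simp only [if_pos h]
      exact (near j (by have := mem_range.1 hj; omega) h).2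
    · simp [h]

theorem w_five (x : ℝ) (h0 : 0 ≤ x) (h1 : x ≤ 1) (a k : ZMod n)
    (ha1 : a ≠ 0) (ha2 : 2 * a ≠ 0) (ha3 : 3 * a ≠ 0) (ha4 : 4 * a ≠ 0) :
    w n x a (k - 2 * a) + w n x a (k - a) + w n x a k + w n x a (k + a) + w n x a (k + 2 * a) ≤
      1 := by
  rw [← w_sum x a]
  have key : ∀ s t : ZMod n, (s - t) * a ≠ 0 → k + s * a ≠ k + t * a := by
    intro s t h h2
    apply h
    have := add_left_cancel h2
    rw [sub_mul, this, sub_self]
  have e : ({k - 2 * a, k - a, k, k + a, k + 2 * a} : Finset (ZMod n)).sum (w n x a) =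
      w n x a (k - 2 * a) + w n x a (k - a) + w n x a k + w n x a (k + a) + w n x a (k + 2 * a) := by
    rw [sum_insert, sum_insert, sum_insert, sum_insert, sum_singleton]
    · ring
    · simp only [mem_singleton]
      intro h
      apply ha1
      linear_combination -h
    · simp only [mem_insert, mem_singleton, not_or]
      exact ⟨fun h => ha1 (by linear_combination -h), fun h => ha2 (by linear_combination -h)⟩
    · simp only [mem_insert, mem_singleton, not_or]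
      exact ⟨fun h => ha1 (by linear_combination -h), fun h => ha2 (by linear_combination -h),
        fun h => ha3 (by linear_combination -h)⟩
    · simp only [mem_insert, mem_singleton, not_or]
      exact ⟨fun h => ha1 (by linear_combination -h), fun h => ha2 (by linear_combination -h),
        fun h => ha3 (by linear_combination -h), fun h => ha4 (by linear_combination -h)⟩
  rw [← e]
  exact sum_le_univ_sum_of_nonneg fun c => w_nonneg h0 h1 a c

/-- classes away from the ends -/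
theorem w_small (x : ℝ) (h0 : 0 ≤ x) (h1 : x ≤ 1) (a k : ZMod n) (h5 : 5 ≤ n)
    (hA : ∀ j ≤ n, (j : ZMod n) * a = k → 2 ≤ j ∧ j + 2 ≤ n)
    (ha1 : a ≠ 0) (ha2 : 2 * a ≠ 0) (ha3 : 3 * a ≠ 0) (ha4 : 4 * a ≠ 0) : w n x a k ≤ 0.36 := by
  have e1 := w_near x h0 h1 a k h5 hA
  have e2 := w_five x h0 h1 a k ha1 ha2 ha3 ha4
  norm_num at e1 ⊢
  linarith [e1.1, e1.2]

end Q9.Dice
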