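import Pool.Agent.Q9.Dice.C

/-! The maximal probability of a residue class. -/

namespace Q9.Dice

open Finset

variable {n : ℕ} [NeZero n]

theorem b_cont (n j : ℕ) : Continuous fun x : ℝ => b n x j := by
  unfold b; fun_prop

theorem w_cont (a c : ZMod n) : Continuous fun x : ℝ => w n x a c := by
  unfold w
  refine continuous_finsetSum _ fun j _ => ?_
  split_ifs
  · exact b_cont n j
  · exact continuous_const

theorem b_one (n : ℕ) (hn : 1 ≤ n) (x : ℝ) : b n x 1 = n * x * (1 - x) ^ (n - 1) := by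
  unfold b; simp

theorem lower_e (hn : 2 ≤ n) : (0.367 : ℝ) < (1 - 1 / (n : ℝ)) ^ (n - 1) := by
  have hn' : (2 : ℝ) ≤ n := by exact_mod_cast hn
  have h1 : 1 + 1 / ((n : ℝ) - 1) ≤ Real.exp (1 / ((n : ℝ) - 1)) := by
    have := Real.add_one_le_exp (1 / ((n : ℝ) - 1))
    linarith
  have hp : 0 < (n : ℝ) - 1 := by linarith
  have h2 : (1 + 1 / ((n : ℝ) - 1)) ^ (n - 1) ≤ Real.exp 1 := by
    calc (1 + 1 / ((n : ℝ) - 1)) ^ (n - 1) ≤ Real.exp (1 / ((n : ℝ) - 1)) ^ (n - 1) :=
          pow_le_pow_left₀ (by positivity) h1 _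
      _ = Real.exp 1 := by
          rw [← Real.exp_nat_mul, Nat.cast_sub (by omega : 1 ≤ n)]
          congr 1
          field_simp
          push_cast
          ring
  have h3 : (1 - 1 / (n : ℝ)) ^ (n - 1) * (1 + 1 / ((n : ℝ) - 1)) ^ (n - 1) = 1 := by
    rw [← mul_pow]
    have : (1 - 1 / (n : ℝ)) * (1 + 1 / ((n : ℝ) - 1)) = 1 := by field_simp; ring
    rw [this, one_pow]
  have h4 : 0 < (1 - 1 / (n : ℝ)) ^ (n - 1) := by
    have : 0 < 1 - 1 / (n : ℝ) := by
      rw [sub_pos, div_lt_one (by positivity)]; linarith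
    positivity
  have h5 := Real.exp_one_lt_d9
  have h6 : 1 ≤ (1 - 1 / (n : ℝ)) ^ (n - 1) * Real.exp 1 :=
    h3.symm.le.trans (mul_le_mul_of_nonneg_left h2 h4.le)
  by_contra hcon
  push Not at hcon
  have h7 : (1 - 1 / (n : ℝ)) ^ (n - 1) * Real.exp 1 ≤ 0.367 * 2.7182818286 :=
    mul_le_mul hcon h5.le (Real.exp_pos 1).le (by norm_num)
  have h8 : (0.367 * 2.7182818286 : ℝ) < 1 := by norm_num
  exact absurd (h6.trans h7) (not_le.2 h8)

theorem w_ge_one (x : ℝ) (h0 : 0 ≤ x) (h1 : x ≤ 1) (a : ZMod n) :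
    b n x 1 ≤ w n x a a := by
  unfold w
  have h : (if ((1 : ℕ) : ZMod n) * a = a then b n x 1 else 0) = b n x 1 := by simp
  rw [← h]
  refine single_le_sum (f := fun j : ℕ => if (j : ZMod n) * a = a then b n x j else 0)
    (fun j _ => ?_) (by
      rw [mem_range]
      have := NeZero.pos n
      omega)
  change 0 ≤ if (j : ZMod n) * a = a then b n x j else 0
  split_ifs
  · exact b_nonneg n h0 h1 j
  · exact le_rfl

theorem half (k : ZMod n) (hk : k ≠ 0) (h2 : 2 * k = 0) : w n (1 / 2) k k = 1 / 2 := by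
  have heven : ∀ j : ℕ, Even j → (j : ZMod n) * k = 0 := by
    rintro j ⟨i, rfl⟩
    push_cast
    linear_combination (i : ZMod n) * h2
  have hodd : ∀ j : ℕ, ¬ Even j → (j : ZMod n) * k = k := by
    intro j hj
    rw [Nat.not_even_iff_odd] at hj
    obtain ⟨i, rfl⟩ := hj
    push_cast
    linear_combination (i : ZMod n) * h2
  have e1 : w n (1 / 2) k k + w n (1 / 2) k 0 = 1 := by
    have hb := b_sum n (1 / 2)
    unfold w
    rw [← sum_add_distrib]
    refine Eq.trans ?_ hb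
    refine sum_congr rfl fun j _ => ?_
    by_cases hj : Even j
    · rw [heven j hj, if_neg hk.symm, if_pos rfl, zero_add]
    · rw [hodd j hj, if_pos rfl, if_neg hk, add_zero]
  have e2 : w n (1 / 2) k 0 - w n (1 / 2) k k = 0 := by
    have h3 := add_pow (-(1 / 2) : ℝ) (1 / 2) n
    have e : (-(1 / 2) : ℝ) + 1 / 2 = 0 := by norm_num
    rw [e, zero_pow (NeZero.ne n)] at h3
    rw [h3]
    unfold w
    rw [← sum_sub_distrib]
    refine sum_congr rfl fun j _ => ?_
    unfold b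
    by_cases hj : Even j
    · rw [heven j hj, if_neg hk.symm, if_pos rfl, hj.neg_pow]
      norm_num
      ring
    · rw [hodd j hj, if_pos rfl, if_neg hk, (Nat.not_even_iff_odd.1 hj).neg_pow]
      norm_num
      ring
  linarith

theorem cop_bound (hn : 2 ≤ n) {x : ℝ} (h0 : 0 ≤ x) (h1 : x ≤ 1) :
    b n x 1 ≤ (1 - 1 / (n : ℝ)) ^ (n - 1) := by
  rw [b_one n (by omega)]
  have hn' : (2 : ℝ) ≤ n := by exact_mod_cast hn
  have hp : 0 < (n : ℝ) - 1 := by linarith
  have hq : 0 < 1 - 1 / (n : ℝ) := by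
    rw [sub_pos, div_lt_one (by positivity)]; linarith
  set u : ℝ := (1 - x) / (1 - 1 / (n : ℝ)) with hu
  have hu0 : 0 ≤ u := div_nonneg (by linarith) hq.le
  have hxu : 1 - x = u * (1 - 1 / (n : ℝ)) := by rw [hu]; field_simp
  have hnx : (n : ℝ) * x = n - (n - 1) * u := by
    have : x = 1 - u * (1 - 1 / (n : ℝ)) := by linarith
    rw [this]; field_simp
  rw [hxu, mul_pow, hnx, ← mul_assoc]
  have key : ((n : ℝ) - (n - 1) * u) * u ^ (n - 1) ≤ 1 := by
    rcases hu0.eq_or_lt with h | h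
    · rw [← h, zero_pow (by omega)]; simp
    · have h3 := one_add_mul_le_pow (a := 1 / u - 1) (by
        have : 0 < 1 / u := by positivity
        linarith) n
      have e : 1 + (1 / u - 1) = 1 / u := by ring
      rw [e] at h3
      have h4 := mul_le_mul_of_nonneg_right h3 (by positivity : 0 ≤ u ^ n)
      have e2 : (1 / u) ^ n * u ^ n = 1 := by
        rw [← mul_pow]
        rw [one_div_mul_cancel h.ne', one_pow]
      rw [e2] at h4
      have e3 : u ^ n = u * u ^ (n - 1) := by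
        rw [← pow_succ']; congr 1; omega
      calc ((n : ℝ) - (n - 1) * u) * u ^ (n - 1) = (1 + n * (1 / u - 1)) * u ^ n := by
            rw [e3]; field_simp; ring
        _ ≤ 1 := h4
  calc ((n : ℝ) - (n - 1) * u) * u ^ (n - 1) * (1 - 1 / (n : ℝ)) ^ (n - 1) ≤
        1 * (1 - 1 / (n : ℝ)) ^ (n - 1) := mul_le_mul_of_nonneg_right key (by positivity)
    _ = _ := one_mul _

end Q9.Dice
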