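import Pool.Agent.Q9.Dice.D

/-! The main theorem. -/

namespace Q9.Dice

open Finset

variable {n : ℕ} [NeZero n]

/-- the two-point bound -/
theorem two_bound (hn : 2 ≤ n) (k : ZMod n) (hk : k ≠ 0) (M : ℝ)
    (hM : ∀ x : ℝ, 0 ≤ x → x ≤ 1 → w n x k k ≤ M) (x : ℝ) (h0 : 0 ≤ x) (h1 : x ≤ 1) (a : ZMod n)
    (ha : a ≠ 0) (h2 : w n x a k ≤ 1 / 2) : w n x a k ≤ M := by
  have hM0 : 0.367 < M := by
    have hx : (0 : ℝ) ≤ 1 / n := by positivity
    have hx1 : (1 : ℝ) / n ≤ 1 := by
      rw [div_le_one (by positivity)]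
      have : (2 : ℝ) ≤ n := by exact_mod_cast hn
      linarith
    have h3 := (w_ge_one (1 / (n : ℝ)) hx hx1 k).trans (hM _ hx hx1)
    rw [b_one n (by omega)] at h3
    have h4 := lower_e hn
    have h5 : (n : ℝ) * (1 / n) = 1 := by field_simp
    rw [h5, one_mul] at h3
    linarith
  by_cases hka : a = k
  · rw [hka]; exact hM x h0 h1
  by_cases hka' : -a = k
  · rw [w_symm, hka']; exact hM (1 - x) (by linarith) (by linarith)
  by_cases hex : ∃ j ≤ n, (j : ZMod n) * a = k
  swap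
  · have : w n x a k = 0 := by
      unfold w
      refine sum_eq_zero fun j hj => if_neg fun h => hex ⟨j, ?_, h⟩
      have := mem_range.1 hj
      omega
    rw [this]; linarith
  have hA : ∀ j ≤ n, (j : ZMod n) * a = k → 2 ≤ j ∧ j + 2 ≤ n := by
    intro j hj h
    have n0 : j ≠ 0 := by rintro rfl; simp at h; exact hk h.symm
    have n1 : j ≠ 1 := by rintro rfl; simp at h; exact hka h
    have n2 : j ≠ n := by rintro rfl; rw [ZMod.natCast_self, zero_mul] at h; exact hk h.symm
    have n3 : j ≠ n - 1 := by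
      rintro rfl
      rw [Nat.cast_sub (by omega), ZMod.natCast_self] at h
      apply hka'
      rw [← h]; push_cast; ring
    omega
  obtain ⟨j, hj, hjk⟩ := hex
  have hj2 := hA j hj hjk
  by_cases ha2 : 2 * a = 0
  · exfalso
    rcases Nat.even_or_odd j with ⟨i, hi⟩ | ⟨i, hi⟩
    · apply hk
      rw [← hjk, hi]; push_cast
      linear_combination (i : ZMod n) * ha2
    · apply hka
      rw [← hjk, hi]; push_cast
      linear_combination -(i : ZMod n) * ha2
  by_cases ha3 : 3 * a = 0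
  · exfalso
    have h3 : j % 3 = 0 ∨ j % 3 = 1 ∨ j % 3 = 2 := by omega
    have h4 := Nat.div_add_mod j 3
    rcases h3 with h3 | h3 | h3
    · apply hk
      rw [← hjk, ← h4, h3]; push_cast
      linear_combination ((j / 3 : ℕ) : ZMod n) * ha3
    · apply hka
      rw [← hjk, ← h4, h3]; push_cast
      linear_combination -((j / 3 : ℕ) : ZMod n) * ha3
    · apply hka'
      rw [← hjk, ← h4, h3]; push_cast
      linear_combination -((j / 3 : ℕ) : ZMod n) * ha3 - ha3
  by_cases ha4 : 4 * a = 0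
  · have h3 : j % 4 = 0 ∨ j % 4 = 1 ∨ j % 4 = 2 ∨ j % 4 = 3 := by omega
    have h4 := Nat.div_add_mod j 4
    have h5 : 2 * k = 0 := by
      rcases h3 with h3 | h3 | h3 | h3
      · exfalso
        apply hk
        rw [← hjk, ← h4, h3]; push_cast
        linear_combination ((j / 4 : ℕ) : ZMod n) * ha4
      · exfalso
        apply hka
        rw [← hjk, ← h4, h3]; push_cast
        linear_combination -((j / 4 : ℕ) : ZMod n) * ha4
      · rw [← hjk, ← h4, h3]; push_cast
        linear_combination 2 * ((j / 4 : ℕ) : ZMod n) * ha4 + ha4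
      · exfalso
        apply hka'
        rw [← hjk, ← h4, h3]; push_cast
        linear_combination -((j / 4 : ℕ) : ZMod n) * ha4 - ha4
    have h6 := hM (1 / 2) (by norm_num) (by norm_num)
    rw [half k hk h5] at h6
    linarith
  have h5 : 5 ≤ n := by
    by_contra hcon
    have : n = 4 := by omega
    apply ha4
    have h7 : ((4 : ℕ) : ZMod n) = 0 := by rw [← this]; exact ZMod.natCast_self n
    push_cast at h7
    rw [h7, zero_mul]
  have := w_small x h0 h1 a k h5 hA ha ha2 ha3 ha4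
  linarith

/-- the bound for all distributions -/
theorem upper (hn : 2 ≤ n) (k : ZMod n) (hk : k ≠ 0) (M : ℝ)
    (hM : ∀ x : ℝ, 0 ≤ x → x ≤ 1 → w n x k k ≤ M) (hM3 : 1 / 3 < M)
    (p : ZMod n → ℝ) (hp : ∀ i, 0 ≤ p i) (hp1 : ∑ i, p i = 1)
    (hmax : ∀ p' : ZMod n → ℝ, (∀ i, 0 ≤ p' i) → ∑ i, p' i = 1 → pr n p' k ≤ pr n p k) :
    pr n p k ≤ M ∧ (1 / 3 < pr n p k → 2 * pr n p k ≤ 1) := by
  obtain ⟨m, rfl⟩ : ∃ m, n = m + 1 := ⟨n - 1, by omega⟩
  by_cases hf : pr (m + 1) p k ≤ 1 / 3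
  · exact ⟨by linarith, fun h => absurd hf (not_le.2 h)⟩
  push Not at hf
  have hcard := supp_card m p hp hp1 k hmax
  set s := univ.filter fun i => p i ≠ 0 with hs
  have hc2 : s.card ≤ 2 := by
    by_contra hcon
    push Not at hcon
    have : (3 : ℝ) ≤ s.card := by exact_mod_cast hcon
    nlinarith
  -- two points containing the support
  have hcard2 : s.card = 2 := by
    by_contra hcon
    have hle : s.card ≤ 1 := by omega
    have hne : s.Nonempty := by
      rw [nonempty_iff_ne_empty]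
      intro he
      have : ∀ i, p i = 0 := by
        intro i
        by_contra hi
        have : i ∈ s := mem_filter.2 ⟨mem_univ i, hi⟩
        rw [he] at this
        exact absurd this (notMem_empty i)
      simp [this] at hp1
    obtain ⟨c, hc⟩ := hne
    have hc0 : ∀ i, i ≠ c → p i = 0 := by
      intro i hi
      by_contra hpi
      have h1 : i ∈ s := mem_filter.2 ⟨mem_univ i, hpi⟩
      exact hi (card_le_one.1 hle i h1 c hc)
    have hpc : p c = 1 := by
      rw [← hp1]
      exact (Fintype.sum_eq_single c hc0).symm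
    have hcd : c ≠ c + 1 := by
      intro h
      have h1 : (1 : ZMod (m + 1)) = 0 := by
        have := congrArg (· - c) h
        simp at this
        exact this.symm
      have : Fact (1 < m + 1) := ⟨by omega⟩
      exact one_ne_zero h1
    have h2 := two_point p 0 c (c + 1) hcd (by rw [hpc, sub_zero]) (hc0 _ hcd.symm)
      (fun i h1 _ => hc0 i h1) k
    have h3 : w (m + 1) 0 (c + 1 - c) k = 0 := by
      unfold w
      refine sum_eq_zero fun j _ => ?_
      rcases Nat.eq_zero_or_pos j with hj | hj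
      · subst hj
        rw [if_neg]
        simpa using hk.symm
      · split_ifs
        · unfold b
          rw [zero_pow (by omega)]; ring
        · rfl
    rw [h3] at h2
    linarith
  rw [hcard2] at hcard
  push_cast at hcard
  obtain ⟨c, d, hcd, hsd⟩ := card_eq_two.1 hcard2
  have h0 : ∀ i, i ≠ c → i ≠ d → p i = 0 := by
    intro i h1 h2
    by_contra hpi
    have : i ∈ s := mem_filter.2 ⟨mem_univ i, hpi⟩
    rw [hsd] at this
    simp [h1, h2] at this
  have hsum : p c + p d = 1 := by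
    rw [← hp1]
    exact (Fintype.sum_eq_add c d hcd (fun i hi => h0 i hi.1 hi.2)).symm
  have h2 := two_point p (p d) c d hcd (by linarith) rfl h0 k
  refine ⟨?_, fun _ => hcard⟩
  rw [h2] at hcard ⊢
  exact two_bound hn k hk M hM (p d) (hp d) (by linarith [hp c]) (d - c) (sub_ne_zero.2 hcd.symm)
    (by linarith)

theorem modEq_iff (k : ℕ) (j : ℕ) :
    j ≡ 1 [MOD n / Nat.gcd n k] ↔ (j : ZMod n) * (k : ZMod n) = k := by
  have hn : 0 < n := NeZero.pos n
  constructor
  · intro h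
    obtain ⟨g1, hg1⟩ := Nat.gcd_dvd_left n k
    obtain ⟨g2, hg2⟩ := Nat.gcd_dvd_right n k
    have hg : 0 < Nat.gcd n k := Nat.gcd_pos_of_pos_left _ hn
    have e1 : n / Nat.gcd n k = g1 := Nat.div_eq_of_eq_mul_right hg hg1
    rw [e1] at h
    have h2 : j * k ≡ 1 * k [MOD n] := by
      have h3 := Nat.ModEq.mul_left' (Nat.gcd n k) h
      rw [← hg1] at h3
      have h4 := Nat.ModEq.mul_right g2 h3
      have e2 : Nat.gcd n k * j * g2 = j * k := by
        conv_rhs => rw [hg2]
        ring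
      have e3 : Nat.gcd n k * 1 * g2 = 1 * k := by
        conv_rhs => rw [hg2]
        ring
      rw [e2, e3] at h4
      exact h4
    rw [one_mul] at h2
    have := (ZMod.natCast_eq_natCast_iff (j * k) k n).2 h2
    rwa [Nat.cast_mul] at this
  · intro h
    have h2 : j * k ≡ 1 * k [MOD n] := by
      rw [one_mul, ← ZMod.natCast_eq_natCast_iff, Nat.cast_mul, h]
    exact Nat.ModEq.cancel_right_div_gcd hn h2

theorem final (n : ℕ) (hn : 2 ≤ n) (k : ℕ) (hk : 0 < k) (hkn : k < n) :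
    haveI : NeZero n := ⟨by omega⟩
    ∃ M : ℝ,
      IsGreatest {v | ∃ p : ZMod n → ℝ, (∀ i, 0 ≤ p i) ∧ ∑ i, p i = 1 ∧ v = pr n p (k : ZMod n)} M ∧
      IsGreatest {v | ∃ x : ℝ, 0 ≤ x ∧ x ≤ 1 ∧ v = ∑ j ∈ range (n + 1),
        if j ≡ 1 [MOD n / Nat.gcd n k] then (n.choose j : ℝ) * x ^ j * (1 - x) ^ (n - j) else 0} M ∧
      (Nat.gcd n k = 1 → M = (1 - 1 / (n : ℝ)) ^ (n - 1)) ∧ (n = 2 * k → M = 1 / 2) := by
  haveI : NeZero n := ⟨by omega⟩
  have hk0 : (k : ZMod n) ≠ 0 := by
    intro h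
    rw [ZMod.natCast_eq_zero_iff] at h
    exact absurd (Nat.le_of_dvd hk h) (by omega)
  have hn' : (2 : ℝ) ≤ n := by exact_mod_cast hn
  have hpoly : ∀ x : ℝ, (∑ j ∈ range (n + 1),
        if j ≡ 1 [MOD n / Nat.gcd n k] then (n.choose j : ℝ) * x ^ j * (1 - x) ^ (n - j) else 0) =
        w n x (k : ZMod n) k := by
    intro x
    unfold w b
    refine sum_congr rfl fun j _ => ?_
    simp only [modEq_iff k j]
  obtain ⟨x0, hx0, hx0max⟩ := isCompact_Icc.exists_isMaxOn (⟨0, by simp⟩ : (Set.Icc (0 : ℝ) 1).Nonempty)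
    (w_cont (k : ZMod n) (k : ZMod n)).continuousOn
  set M := w n x0 (k : ZMod n) k with hMdef
  have hM : ∀ x : ℝ, 0 ≤ x → x ≤ 1 → w n x (k : ZMod n) k ≤ M := fun x h0 h1 => hx0max ⟨h0, h1⟩
  have hx : (0 : ℝ) ≤ 1 / n := by positivity
  have hx1 : (1 : ℝ) / n ≤ 1 := by
    rw [div_le_one (by positivity)]; linarith
  have hMlow : (1 - 1 / (n : ℝ)) ^ (n - 1) ≤ M := by
    have h3 := (w_ge_one (1 / (n : ℝ)) hx hx1 (k : ZMod n)).trans (hM _ hx hx1)
    rw [b_one n (by omega)] at h3
    have h5 : (n : ℝ) * (1 / n) = 1 := by field_simp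
    rwa [h5, one_mul] at h3
  have hM3 : 1 / 3 < M := by
    have := lower_e hn
    norm_num at this ⊢
    norm_num at hMlow
    linarith
  -- a maximiser on the simplex
  obtain ⟨p, hp, hpmax⟩ := (isCompact_stdSimplex ℝ (ZMod n)).exists_isMaxOn
    ⟨Pi.single 0 1, single_mem_stdSimplex ℝ 0⟩ (pr_cont n (k : ZMod n)).continuousOn
  have hmax : ∀ p' : ZMod n → ℝ, (∀ i, 0 ≤ p' i) → ∑ i, p' i = 1 → pr n p' k ≤ pr n p (k : ZMod n) :=
    fun p' h1 h2 => hpmax ⟨h1, h2⟩
  obtain ⟨hup, hhalf⟩ := upper hn (k : ZMod n) hk0 M hM hM3 p hp.1 hp.2 hmax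
  -- the two-point distribution
  set p0 : ZMod n → ℝ := fun i => if i = 0 then 1 - x0 else if i = (k : ZMod n) then x0 else 0 with hp0
  have hp00 : ∀ i, 0 ≤ p0 i := by
    intro i
    simp only [hp0]
    have h1 : 0 ≤ 1 - x0 := by linarith [hx0.2]
    have h2 : 0 ≤ x0 := hx0.1
    split_ifs
    · exact h1
    · exact h2
    · exact le_rfl
  have hp01 : ∑ i, p0 i = 1 := by
    rw [Fintype.sum_eq_add 0 (k : ZMod n) hk0.symm]
    · simp [hp0, hk0]
    · rintro i ⟨h1, h2⟩; simp [hp0, h1, h2]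
  have hp0v : pr n p0 k = M := two_point' x0 (k : ZMod n) hk0 k
  have hfM : pr n p (k : ZMod n) = M := le_antisymm hup (hp0v ▸ hmax p0 hp00 hp01)
  refine ⟨M, ⟨⟨p0, hp00, hp01, hp0v.symm⟩, ?_⟩, ⟨⟨x0, hx0.1, hx0.2, (hpoly x0).symm⟩, ?_⟩, ?_, ?_⟩
  · rintro v ⟨p', h1, h2, rfl⟩
    exact (hmax p' h1 h2).trans hup
  · rintro v ⟨x, h1, h2, rfl⟩
    rw [hpoly]
    exact hM x h1 h2
  · intro hg
    refine le_antisymm ?_ hMlow
    have h1 : M = b n x0 1 := by
      rw [hMdef, ← hpoly]
      rw [hg, Nat.div_one]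
      rw [sum_eq_single 1]
      · rw [if_pos (Nat.ModEq.refl 1)]; rfl
      · intro j hj hj1
        rw [if_neg]
        intro h
        have hjn : j < n + 1 := mem_range.1 hj
        rcases Nat.lt_or_ge j n with h2 | h2
        · exact hj1 (Nat.ModEq.eq_of_lt_of_lt h h2 (by omega))
        · have : j = n := by omega
          subst this
          have h3 : j % j = 1 % j := h
          rw [Nat.mod_self, Nat.mod_eq_of_lt (by omega)] at h3
          omega
      · intro h; exact absurd (mem_range.2 (by omega)) h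
    rw [h1]
    exact cop_bound hn hx0.1 hx0.2
  · intro h2k
    have h3 : 2 * (k : ZMod n) = 0 := by
      have : ((2 * k : ℕ) : ZMod n) = 0 := by rw [← h2k]; exact ZMod.natCast_self n
      rwa [Nat.cast_mul, Nat.cast_ofNat] at this
    have h4 := hM (1 / 2) (by norm_num) (by norm_num)
    rw [half (k : ZMod n) hk0 h3] at h4
    have h5 := hhalf (by rw [hfM]; exact hM3)
    rw [hfM] at h5
    linarith

end Q9.Dice
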