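import Pool.Agent.Q9.Dice.E

/-! Dice. -/

namespace Q9.Dice

open Finset Filter Topology

/-- the probability that the sum of the labels of `n` identical dice with `m` faces labelled by `ℓ` is
`k` modulo `n` -/
noncomputable def dice (n m : ℕ) (ℓ : Fin m → ℤ) (k : ZMod n) : ℝ :=
  ((univ.filter fun t : Fin n → Fin m => ((∑ i, ℓ (t i) : ℤ) : ZMod n) = k).card : ℝ) / (m : ℝ) ^ n

variable {n : ℕ} [NeZero n]

/-- the residue distribution of a die -/
noncomputable def law (m : ℕ) (ℓ : Fin m → ℤ) (i : ZMod n) : ℝ :=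
  ((univ.filter fun f : Fin m => ((ℓ f : ℤ) : ZMod n) = i).card : ℝ) / m

theorem law_nonneg (m : ℕ) (ℓ : Fin m → ℤ) (i : ZMod n) : 0 ≤ law m ℓ i := by
  unfold law; positivity

theorem law_sum (m : ℕ) (hm : 0 < m) (ℓ : Fin m → ℤ) : ∑ i : ZMod n, law m ℓ i = 1 := by
  unfold law
  rw [← sum_div, div_eq_one_iff_eq (by positivity)]
  have h : ∀ i : ZMod n, ((univ.filter fun f : Fin m => ((ℓ f : ℤ) : ZMod n) = i).card : ℝ) =
      ∑ f : Fin m, if ((ℓ f : ℤ) : ZMod n) = i then (1 : ℝ) else 0 := by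
    intro i; rw [sum_boole]
  simp_rw [h]
  rw [sum_comm]
  simp

theorem dice_eq (m : ℕ) (ℓ : Fin m → ℤ) (k : ZMod n) : dice n m ℓ k = pr n (law m ℓ) k := by
  unfold dice pr law
  have h1 : ∀ x : Fin n → ZMod n, (∏ i, (((univ.filter fun f : Fin m =>
      ((ℓ f : ℤ) : ZMod n) = x i).card : ℝ) / m)) =
      (∑ t : Fin n → Fin m, ∏ i, (if ((ℓ (t i) : ℤ) : ZMod n) = x i then (1 : ℝ) else 0)) /
        (m : ℝ) ^ n := by
    intro x
    rw [prod_div_distrib, prod_const, card_univ, Fintype.card_fin]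
    congr 1
    rw [← Fintype.prod_sum (fun i (f : Fin m) => if ((ℓ f : ℤ) : ZMod n) = x i then (1 : ℝ) else 0)]
    exact prod_congr rfl fun i _ => by rw [sum_boole]
  simp_rw [h1]
  have h2 : ∀ x : Fin n → ZMod n, (if ∑ i, x i = k then
      (∑ t : Fin n → Fin m, ∏ i, (if ((ℓ (t i) : ℤ) : ZMod n) = x i then (1 : ℝ) else 0)) /
        (m : ℝ) ^ n else 0) = (∑ t : Fin n → Fin m, if ∑ i, x i = k then
          ∏ i, (if ((ℓ (t i) : ℤ) : ZMod n) = x i then (1 : ℝ) else 0) else 0) / (m : ℝ) ^ n := by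
    intro x
    split_ifs <;> simp
  simp_rw [h2]
  rw [← sum_div, sum_comm]
  congr 1
  rw [← sum_boole]
  refine sum_congr rfl fun t _ => ?_
  rw [Fintype.sum_eq_single (fun i => ((ℓ (t i) : ℤ) : ZMod n))]
  · simp
  · intro x hx
    split_ifs
    · obtain ⟨i, hi⟩ := Function.ne_iff.1 hx
      exact prod_eq_zero (mem_univ i) (if_neg fun h => hi h.symm)
    · rfl

/-- the die with `a` faces labelled `k` and `m - a` faces labelled `0` -/
theorem law_two (m a : ℕ) (hm : 0 < m) (ha : a ≤ m) (k : ℕ) (hk : (k : ZMod n) ≠ 0) :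
    (law m (fun f : Fin m => if (f : ℕ) < a then (k : ℤ) else 0) : ZMod n → ℝ) =
      fun i => if i = 0 then 1 - (a : ℝ) / m else if i = (k : ZMod n) then (a : ℝ) / m else 0 := by
  have hm' : (m : ℝ) ≠ 0 := by positivity
  have hcard : (univ.filter fun f : Fin m => (f : ℕ) < a).card = a := by
    have := Fin.card_filter_val_lt (m := a) (n := m)
    rw [this]; omega
  have hcard' : (univ.filter fun f : Fin m => ¬ (f : ℕ) < a).card = m - a := by
    have := card_filter_add_card_filter_not (s := (univ : Finset (Fin m))) (fun f => (f : ℕ) < a)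
    rw [hcard, card_univ, Fintype.card_fin] at this
    omega
  funext i
  unfold law
  have hcast : ∀ f : Fin m, (((if (f : ℕ) < a then (k : ℤ) else 0 : ℤ)) : ZMod n) =
      if (f : ℕ) < a then (k : ZMod n) else 0 := by
    intro f; split_ifs <;> simp
  simp_rw [hcast]
  by_cases h0 : i = 0
  · subst h0
    rw [if_pos rfl]
    have : (univ.filter fun f : Fin m => (if (f : ℕ) < a then (k : ZMod n) else 0) = 0) =
        univ.filter fun f : Fin m => ¬ (f : ℕ) < a := by
      ext f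
      simp only [mem_filter, mem_univ, true_and]
      split_ifs with h <;> simp [h, hk]
    rw [this, hcard', Nat.cast_sub ha, sub_div, div_self hm']
  · rw [if_neg h0]
    by_cases h1 : i = (k : ZMod n)
    · subst h1
      rw [if_pos rfl]
      have : (univ.filter fun f : Fin m => (if (f : ℕ) < a then (k : ZMod n) else 0) = k) =
          univ.filter fun f : Fin m => (f : ℕ) < a := by
        ext f
        simp only [mem_filter, mem_univ, true_and]
        split_ifs with h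
        · simp [h]
        · simp [h, Ne.symm hk]
      rw [this, hcard]
    · rw [if_neg h1]
      have : (univ.filter fun f : Fin m => (if (f : ℕ) < a then (k : ZMod n) else 0) = i) = ∅ := by
        ext f
        simp only [mem_filter, mem_univ, true_and, notMem_empty, iff_false]
        split_ifs with h
        · exact fun h2 => h1 h2.symm
        · exact fun h2 => h0 h2.symm
      rw [this]; simp

theorem dice_lub (n : ℕ) (hn : 2 ≤ n) (k : ℕ) (hk : 0 < k) (hkn : k < n) :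
    ∃ M : ℝ,
      IsLUB {v | ∃ (m : ℕ) (ℓ : Fin m → ℤ), 2 ≤ m ∧ v = dice n m ℓ (k : ZMod n)} M ∧
      IsGreatest {v | ∃ x : ℝ, 0 ≤ x ∧ x ≤ 1 ∧ v = ∑ j ∈ range (n + 1),
        if j ≡ 1 [MOD n / Nat.gcd n k] then (n.choose j : ℝ) * x ^ j * (1 - x) ^ (n - j) else 0} M ∧
      (Nat.gcd n k = 1 → M = (1 - 1 / (n : ℝ)) ^ (n - 1)) ∧ (n = 2 * k → M = 1 / 2) := by
  haveI : NeZero n := ⟨by omega⟩
  have hk0 : (k : ZMod n) ≠ 0 := by
    intro h
    rw [ZMod.natCast_eq_zero_iff] at h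
    exact absurd (Nat.le_of_dvd hk h) (by omega)
  obtain ⟨M, h1, h2, h3, h4⟩ := final n hn k hk hkn
  refine ⟨M, ⟨?_, ?_⟩, h2, h3, h4⟩
  · rintro v ⟨m, ℓ, hm, rfl⟩
    exact h1.2 ⟨law m ℓ, law_nonneg m ℓ, law_sum m (by omega) ℓ, dice_eq m ℓ _⟩
  · intro c hc
    obtain ⟨x0, hx0, hx1, hx⟩ := h2.1
    have hpoly : ∀ x : ℝ, (∑ j ∈ range (n + 1),
        if j ≡ 1 [MOD n / Nat.gcd n k] then (n.choose j : ℝ) * x ^ j * (1 - x) ^ (n - j) else 0) =
        w n x (k : ZMod n) k := by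
      intro x
      unfold w b
      refine sum_congr rfl fun j _ => ?_
      simp only [modEq_iff k j]
    rw [hpoly] at hx
    have ht : Tendsto (fun m : ℕ => (⌊x0 * (m : ℝ)⌋₊ : ℝ) / (m : ℝ)) atTop (𝓝 x0) :=
      (tendsto_nat_floor_mul_div_atTop hx0).comp tendsto_natCast_atTop_atTop
    have ht2 : Tendsto (fun m : ℕ => w n ((⌊x0 * (m : ℝ)⌋₊ : ℝ) / (m : ℝ)) (k : ZMod n) k) atTop
        (𝓝 M) := by
      rw [hx]
      exact ((w_cont (k : ZMod n) (k : ZMod n)).tendsto x0).comp ht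
    refine le_of_tendsto ht2 ?_
    filter_upwards [eventually_ge_atTop 2] with m hm
    apply hc
    have hm0 : (0 : ℝ) < m := by positivity
    have ha : ⌊x0 * (m : ℝ)⌋₊ ≤ m := by
      have : x0 * (m : ℝ) ≤ m := by nlinarith
      exact (Nat.floor_le_floor this).trans (by simp)
    refine ⟨m, fun f : Fin m => if (f : ℕ) < ⌊x0 * (m : ℝ)⌋₊ then (k : ℤ) else 0, hm, ?_⟩
    rw [dice_eq, law_two m _ (by omega) ha k hk0, two_point' _ _ hk0]

end Q9.Dice
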